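import Pool.Agent.H677R3.RegKoszul
import Pool.Agent.Q14.PowV

/-!
# A product of two Golod monomial ideals which is not Golod
-/

set_option autoImplicit false

namespace Pool.Agent.Results.MP_6756f0_al.ProductOfGolodIdeals

open MvPolynomial Q14.Mono Pool.Agent.H677R3.EdgeReg

universe u

section Defs

variable {R : Type u} [CommRing R] {n : ℕ}

/-- The Koszul differential. The Koszul complex of `x_1, …, x_n ∈ R` is the exterior algebra on
`e_1, …, e_n`; an element `∑_T c_T e_T` (`T ⊆ {1..n}`, `e_T` the product of the `e_t` in increasing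
order) is written as the function `c`. Its differential is the derivation with `e_j ↦ x_j`. -/
def dK (x : Fin n → R) (c : Finset (Fin n) → R) : Finset (Fin n) → R :=
  fun T => ∑ j ∈ Tᶜ, (-1) ^ (T.filter (· < j)).card * (x j * c (insert j T))

/-- The product of the Koszul complex: `e_A e_B` is `0` if `A` and `B` meet, and otherwise
`(-1)^s e_{A ∪ B}` with `s` the number of pairs `(a, b)` with `b < a`. -/
def mulK (a b : Finset (Fin n) → R) : Finset (Fin n) → R :=
  fun T => ∑ A ∈ T.powerset,
    (-1) ^ ((A ×ˢ (T \ A)).filter (fun p => p.2 < p.1)).card * (a A * b (T \ A))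

/-- `a ↦ (-1)^{|a|+1} a` -/
def barK (a : Finset (Fin n) → R) : Finset (Fin n) → R := fun T => (-1) ^ (T.card + 1) * a T

/-- `a` is homogeneous of homological degree `d`. -/
def HomDeg (a : Finset (Fin n) → R) (d : ℕ) : Prop := ∀ T : Finset (Fin n), T.card ≠ d → a T = 0

end Defs

/-- The classes of the variables in `S/I`. -/
noncomputable def vars {k : Type u} [Field k] {n : ℕ} (I : Ideal (MvPolynomial (Fin n) k)) :
    Fin n → MvPolynomial (Fin n) k ⧸ I := fun j => Ideal.Quotient.mk I (X j)

/-- `I ⊆ 𝔪²` is Golod: the Koszul complex `K^R` of `R = S/I` has a trivial Massey operation `μ`, that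
is, there are homogeneous cycles `μ(h)` (`h ∈ Λ`) of positive degree whose classes form a `k`-basis
of `H_{≥1}(K^R)`, and chains `μ(h_1, …, h_p)` with
`∂ μ(h_1, …, h_p) = ∑_{j=1}^{p-1} \overline{μ(h_1, …, h_j)} μ(h_{j+1}, …, h_p)` for `p ≥ 2`. -/
def IsGolod {k : Type u} [Field k] {n : ℕ} (I : Ideal (MvPolynomial (Fin n) k)) : Prop :=
  ∃ (Λ : Type u) (deg : Λ → ℕ) (μ : List Λ → Finset (Fin n) → MvPolynomial (Fin n) k ⧸ I),
    (∀ h, 1 ≤ deg h) ∧
    (∀ l, l ≠ [] → HomDeg (μ l) ((l.map deg).sum + l.length - 1)) ∧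
    (∀ h, dK (vars I) (μ [h]) = 0) ∧
    (∀ c, dK (vars I) c = 0 → c ∅ = 0 →
      ∃ (α : Λ →₀ k) (g : Finset (Fin n) → MvPolynomial (Fin n) k ⧸ I),
        c = (α.sum fun h r => r • μ [h]) + dK (vars I) g) ∧
    (∀ (α : Λ →₀ k) (g : Finset (Fin n) → MvPolynomial (Fin n) k ⧸ I),
      (α.sum fun h r => r • μ [h]) = dK (vars I) g → α = 0) ∧
    (∀ l, 2 ≤ l.length →
      dK (vars I) (μ l) = ∑ j ∈ Finset.Ico 1 l.length, mulK (barK (μ (l.take j))) (μ (l.drop j)))

section Basic

variable {k : Type u} [Field k] {n : ℕ}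

lemma dK_mk (I : Ideal (MvPolynomial (Fin n) k)) (C : Finset (Fin n) → MvPolynomial (Fin n) k)
    (T : Finset (Fin n)) :
    dK (vars I) (fun T => Ideal.Quotient.mk I (C T)) T = Ideal.Quotient.mk I (koszulD C T) := by
  unfold dK koszulD vars
  rw [map_sum]
  refine Finset.sum_congr rfl fun j _ => ?_
  simp

/-- The differential as a linear map. -/
noncomputable def dL (I : Ideal (MvPolynomial (Fin n) k)) :
    (Finset (Fin n) → MvPolynomial (Fin n) k ⧸ I) →ₗ[k]
      (Finset (Fin n) → MvPolynomial (Fin n) k ⧸ I) where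
  toFun := dK (vars I)
  map_add' := by
    intro a b
    funext T
    simp only [dK, Pi.add_apply]
    rw [← Finset.sum_add_distrib]
    exact Finset.sum_congr rfl fun j _ => by ring
  map_smul' := by
    intro r a
    funext T
    simp only [dK, Pi.smul_apply, RingHom.id_apply]
    rw [Finset.smul_sum]
    refine Finset.sum_congr rfl fun j _ => ?_
    rw [mul_smul_comm, mul_smul_comm]

lemma dL_apply (I : Ideal (MvPolynomial (Fin n) k))
    (a : Finset (Fin n) → MvPolynomial (Fin n) k ⧸ I) : dL I a = dK (vars I) a := rfl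

/-- The reduction lemma. -/
lemma reduction [Nonempty (Fin n)] (I 𝔞 : Ideal (MvPolynomial (Fin n) k)) (hI : IsMon I)
    (hcone : ∀ b : Fin n →₀ ℕ, b ≠ 0 → ∃ v, b v ≠ 0 ∧ ∀ T : Finset (Fin n), v ∉ T → ind T ≤ b →
      monomial (b - ind T) (1 : k) ∈ I → monomial (b - ind (insert v T)) (1 : k) ∈ 𝔞)
    (C : Finset (Fin n) → MvPolynomial (Fin n) k) (h0 : C ∅ = 0) (hC : ∀ T, koszulD C T ∈ I) :
    ∃ g : Finset (Fin n) → MvPolynomial (Fin n) k, (∀ T, T.card ≤ 1 → g T = 0) ∧
      ∀ T, C T - koszulD g T ∈ 𝔞 := by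
  classical
  choose! v hv1 hv2 using hcone
  let G : (Fin n →₀ ℕ) → Finset (Fin n) → k := fun b =>
    if b = 0 then fun _ => 0 else hv (v b) (comp C b)
  have hGle : ∀ b T, G b T ≠ 0 → ind T ≤ b ∧ 2 ≤ T.card := by
    intro b T h
    by_cases hb : b = 0
    · simp only [G, if_pos hb] at h
      exact absurd rfl h
    · simp only [G, if_neg hb] at h
      unfold hv at h
      split_ifs at h with hvT
      · have h2 := right_ne_zero_of_mul h
        unfold comp at h2
        split_ifs at h2 with hle
        · constructor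
          · intro w
            rw [ind_apply]
            by_cases hw : w = v b
            · subst hw
              rw [if_pos hvT]
              have := hv1 b hb
              omega
            · have := hle w
              rw [ind_apply] at this
              simpa [Finset.mem_erase, hw] using this
          · by_contra hcon
            have hcard : T.card = 1 := by
              have := Finset.card_pos.mpr ⟨v b, hvT⟩
              omega
            have hT : T.erase (v b) = ∅ := by
              rw [← Finset.card_eq_zero, Finset.card_erase_of_mem hvT, hcard]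
            rw [hT, h0, coeff_zero] at h2
            exact h2 rfl
        · exact absurd rfl h2
      · exact absurd rfl h
  let B : Finset (Fin n →₀ ℕ) := Finset.univ.biUnion (fun T => (C T).support.image (· + ind T))
  have hB : ∀ b, b ∉ B → ∀ T, comp C b T = 0 := by
    intro b hb T
    by_contra h
    apply hb
    unfold comp at h
    split_ifs at h with hle
    · refine Finset.mem_biUnion.mpr ⟨T, Finset.mem_univ _, Finset.mem_image.mpr ⟨b - ind T,
        MvPolynomial.mem_support_iff.mpr h, tsub_add_cancel_of_le hle⟩⟩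
    · exact absurd rfl h
  let g : Finset (Fin n) → MvPolynomial (Fin n) k :=
    fun T => ∑ b ∈ B, MvPolynomial.monomial (b - ind T) (G b T)
  have hg : ∀ b T, comp g b T = if b ∈ B then G b T else 0 := by
    intro b T
    have key : ∀ b' ∈ B, ind T ≤ b → (MvPolynomial.monomial (b' - ind T) (G b' T)).coeff (b - ind T) =
        if b' = b then G b T else 0 := by
      intro b' _ hle
      rw [MvPolynomial.coeff_monomial]
      by_cases h0 : G b' T = 0
      · by_cases h1 : b' = b
        · subst h1; simp [h0]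
        · rw [h0]; simp [h1]
      · have hle' := (hGle b' T h0).1
        by_cases h1 : b' = b
        · subst h1; simp
        · rw [if_neg h1, if_neg]
          intro h2
          apply h1
          rw [← tsub_add_cancel_of_le hle', ← tsub_add_cancel_of_le hle, h2]
    unfold comp
    by_cases hle : ind T ≤ b
    · rw [if_pos hle]
      simp only [g]
      rw [MvPolynomial.coeff_sum, Finset.sum_congr rfl (fun b' hb' => key b' hb' hle)]
      rw [Finset.sum_ite_eq' B b]
    · rw [if_neg hle]
      split_ifs with hb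
      · by_contra h
        exact hle (hGle b T (fun h' => h h'.symm)).1
      · rfl
  refine ⟨g, ?_, ?_⟩
  · intro T hT
    refine Finset.sum_eq_zero fun b _ => ?_
    have : G b T = 0 := by
      by_contra h
      have := (hGle b T h).2
      omega
    rw [this, monomial_zero]
  · intro T
    refine mem_of_forall fun c hc => ?_
    rw [mem_support_iff, coeff_sub, ← comp_add_ind C, ← comp_add_ind, comp_koszulD] at hc
    set b := c + ind T with hb
    have h1 : comp g b = fun T => if b ∈ B then G b T else 0 := by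
      funext T; exact hg b T
    rw [h1] at hc
    by_cases hbB : b ∈ B
    · simp only [if_pos hbB] at hc
      by_cases hb0 : b = 0
      · exfalso
        have hT : T = ∅ := by
          by_contra hne
          obtain ⟨w, hw⟩ := Finset.nonempty_iff_ne_empty.mpr hne
          have h2 := DFunLike.congr_fun hb0 w
          rw [hb, Finsupp.add_apply, ind_apply, if_pos hw] at h2
          simp at h2
        have h3 : G b = fun _ => 0 := by simp only [G, if_pos hb0]
        apply hc
        have h4 : cd (fun T => G b T) T = 0 := by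
          rw [h3]; exact cd_zero T
        rw [h4, sub_zero]
        unfold comp
        split_ifs
        · rw [hT, h0, coeff_zero]
        · rfl
      · have h3 : (fun T => G b T) = hv (v b) (comp C b) := by simp only [G, if_neg hb0]
        rw [h3] at hc
        have h4 := homotopy (v b) (comp C b) T
        have h5 : comp C b T - cd (hv (v b) (comp C b)) T = hv (v b) (cd (comp C b)) T := by
          rw [← h4]; ring
        rw [h5] at hc
        unfold hv at hc
        split_ifs at hc with hvT
        · have h6 := right_ne_zero_of_mul hc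
          rw [← comp_koszulD] at h6
          unfold comp at h6
          split_ifs at h6 with hle
          · have h7 := hI _ (hC (T.erase (v b))) _ (mem_support_iff.mpr h6)
            have h8 := hv2 b hb0 (T.erase (v b)) (Finset.notMem_erase _ _) hle h7
            rw [Finset.insert_erase hvT] at h8
            have h9 : b - ind T = c := by rw [hb, add_tsub_cancel_right]
            rwa [h9] at h8
          · exact absurd rfl h6
        · exact absurd rfl hc
    · exfalso
      simp only [if_neg hbB] at hc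
      rw [cd_zero, hB b hbB, sub_zero] at hc
      exact hc rfl

/-- A criterion for Golodness. -/
theorem golod_of [Nonempty (Fin n)] (I 𝔞 : Ideal (MvPolynomial (Fin n) k)) (hI : IsMon I)
    (hcone : ∀ b : Fin n →₀ ℕ, b ≠ 0 → ∃ v, b v ≠ 0 ∧ ∀ T : Finset (Fin n), v ∉ T → ind T ≤ b →
      monomial (b - ind T) (1 : k) ∈ I → monomial (b - ind (insert v T)) (1 : k) ∈ 𝔞)
    (hsq : 𝔞 * 𝔞 ≤ I) : IsGolod I := by
  classical
  -- the homogeneous cycles with coefficients in `𝔞`
  let W : Set (Finset (Fin n) → MvPolynomial (Fin n) k ⧸ I) :=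
    {w | (∃ d, 1 ≤ d ∧ HomDeg w d) ∧ dK (vars I) w = 0 ∧
      ∀ T, ∃ f ∈ 𝔞, w T = Ideal.Quotient.mk I f}
  let q := (LinearMap.range (dL I)).mkQ
  obtain ⟨Λ, hΛ1, hΛ2, hΛ3⟩ := exists_linearIndependent k (q '' W)
  -- representatives
  have hrep : ∀ h : Λ, ∃ w ∈ W, q w = h.1 := fun h => hΛ1 h.2
  choose w hwW hwq using hrep
  have hdeg : ∀ h : Λ, ∃ d, 1 ≤ d ∧ HomDeg (w h) d := fun h => (hwW h).1
  choose deg hdeg1 hdeg2 using hdeg
  let μ : List Λ → Finset (Fin n) → MvPolynomial (Fin n) k ⧸ I := fun l =>
    match l with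
    | [h] => w h
    | _ => 0
  have hμ2 : ∀ l : List Λ, 2 ≤ l.length → μ l = 0 := by
    intro l hl
    match l with
    | [] => rfl
    | [h] => simp at hl
    | _ :: _ :: _ => rfl
  have hμc : ∀ l : List Λ, ∀ T, ∃ f ∈ 𝔞, μ l T = Ideal.Quotient.mk I f := by
    intro l T
    match l with
    | [] => exact ⟨0, 𝔞.zero_mem, by simp [μ]⟩
    | [h] => exact (hwW h).2.2 T
    | _ :: _ :: _ => exact ⟨0, 𝔞.zero_mem, by simp [μ]⟩
  refine ⟨Λ, deg, μ, hdeg1, ?_, fun h => (hwW h).2.1, ?_, ?_, ?_⟩
  · intro l hl
    match l with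
    | [] => exact absurd rfl hl
    | [h] => simpa using hdeg2 h
    | _ :: _ :: _ => intro T _; rfl
  · -- the classes span
    intro c hc hc0
    have hlift : ∀ T, ∃ f : MvPolynomial (Fin n) k, Ideal.Quotient.mk I f = c T :=
      fun T => Ideal.Quotient.mk_surjective (c T)
    choose C' hC' using hlift
    let C : Finset (Fin n) → MvPolynomial (Fin n) k := fun T => if T = ∅ then 0 else C' T
    have hCc : (fun T => Ideal.Quotient.mk I (C T)) = c := by
      funext T
      by_cases hT : T = ∅
      · simp only [C, if_pos hT, map_zero]; rw [hT, hc0]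
      · simp only [C, if_neg hT]; exact hC' T
    have hC : ∀ T, koszulD C T ∈ I := by
      intro T
      rw [← Ideal.Quotient.eq_zero_iff_mem, ← dK_mk, hCc, hc]
      rfl
    obtain ⟨g, hg1, hg2⟩ := reduction I 𝔞 hI hcone C (by simp [C]) hC
    -- the remainder
    let a : Finset (Fin n) → MvPolynomial (Fin n) k ⧸ I :=
      fun T => Ideal.Quotient.mk I (C T - koszulD g T)
    have ha : a = c - dL I (fun T => Ideal.Quotient.mk I (g T)) := by
      funext T
      simp only [a, map_sub, Pi.sub_apply, dL_apply, dK_mk]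
      rw [← hCc]
    have haq : q a = q c := by
      rw [ha, map_sub, sub_eq_self]
      exact (Submodule.Quotient.mk_eq_zero _).mpr ⟨_, rfl⟩
    have hda : dK (vars I) a = 0 := by
      have h1 : dL I a = 0 := by
        rw [ha, map_sub]
        have h2 : dL I c = 0 := hc
        rw [h2, zero_sub, neg_eq_zero]
        funext T
        show dK (vars I) (dK (vars I) fun T => Ideal.Quotient.mk I (g T)) T = 0
        have h3 : (dK (vars I) fun T => Ideal.Quotient.mk I (g T)) =
            fun T => Ideal.Quotient.mk I (koszulD g T) := by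
          funext T; exact dK_mk I g T
        rw [h3, dK_mk]
        have h4 : koszulD (koszulD g) T = 0 := by
          ext e
          rw [← comp_add_ind, comp_koszulD]
          have h5 : comp (koszulD g) (e + ind T) = cd (comp g (e + ind T)) := by
            funext T'; exact comp_koszulD g _ T'
          rw [h5, cd_cd, coeff_zero]
        rw [h4, map_zero]
      exact h1
    have ha0 : a ∅ = 0 := by
      show Ideal.Quotient.mk I (C ∅ - koszulD g ∅) = 0
      have h1 : koszulD g ∅ = 0 := by
        unfold koszulD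
        refine Finset.sum_eq_zero fun j _ => ?_
        rw [hg1 (insert j ∅) (by simp), mul_zero, mul_zero]
      rw [h1]; simp [C]
    -- homogeneous components
    let ad : ℕ → Finset (Fin n) → MvPolynomial (Fin n) k ⧸ I :=
      fun d T => if T.card = d then a T else 0
    have hadW : ∀ d, 1 ≤ d → ad d ∈ W := by
      intro d hd
      refine ⟨⟨d, hd, fun T hT => if_neg hT⟩, ?_, ?_⟩
      · funext T
        show ∑ j ∈ Tᶜ, _ = (0 : MvPolynomial (Fin n) k ⧸ I)
        by_cases hT : T.card + 1 = d
        · have h1 : dK (vars I) a T = 0 := congrFun hda T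
          refine Eq.trans ?_ h1
          refine Finset.sum_congr rfl fun j hj => ?_
          have : (insert j T).card = d := by
            rw [Finset.card_insert_of_notMem (by simpa using hj), hT]
          simp only [ad, if_pos this]
        · refine Finset.sum_eq_zero fun j hj => ?_
          have : (insert j T).card ≠ d := by
            rw [Finset.card_insert_of_notMem (by simpa using hj)]; exact hT
          simp only [ad, if_neg this, mul_zero]
      · intro T
        by_cases hT : T.card = d
        · exact ⟨_, hg2 T, by simp only [ad, if_pos hT]; rfl⟩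
        · exact ⟨0, 𝔞.zero_mem, by simp only [ad, if_neg hT, map_zero]⟩
    have hasum : a = ∑ d ∈ Finset.Icc 1 n, ad d := by
      funext T
      rw [Finset.sum_apply]
      by_cases hT : T = ∅
      · rw [hT, ha0]
        symm
        refine Finset.sum_eq_zero fun d hd => ?_
        rw [Finset.mem_Icc] at hd
        simp only [ad]
        rw [if_neg]
        rw [Finset.card_empty]; omega
      · rw [Finset.sum_eq_single T.card]
        · simp only [ad, if_pos]
        · intro d _ hd
          simp only [ad]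
          rw [if_neg (Ne.symm hd)]
        · intro h
          exfalso
          apply h
          rw [Finset.mem_Icc]
          refine ⟨Finset.card_pos.mpr (Finset.nonempty_iff_ne_empty.mpr hT), ?_⟩
          simpa using Finset.card_le_univ T
    have hmem : q c ∈ Submodule.span k Λ := by
      rw [hΛ2, ← haq, hasum, map_sum]
      refine Submodule.sum_mem _ fun d hd => ?_
      rw [Finset.mem_Icc] at hd
      exact Submodule.subset_span ⟨ad d, hadW d hd.1, rfl⟩
    obtain ⟨α, hα⟩ := (Finsupp.mem_span_iff_linearCombination k _ _).mp hmem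
    have hzero : q (c - α.sum fun h r => r • μ [h]) = 0 := by
      rw [map_sub, sub_eq_zero, ← hα, Finsupp.linearCombination_apply, Finsupp.sum, Finsupp.sum,
        map_sum]
      refine Finset.sum_congr rfl fun h _ => ?_
      rw [map_smul]
      congr 1
      exact (hwq h).symm
    obtain ⟨g', hg'⟩ := (Submodule.Quotient.mk_eq_zero _).mp hzero
    exact ⟨α, g', by rw [← dL_apply, hg']; abel⟩
  · -- the classes are independent
    intro α g hαg
    have h1 : Finsupp.linearCombination k (Subtype.val : Λ → _) α = 0 := by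
      have h2 : q (α.sum fun h r => r • μ [h]) = 0 := by
        rw [hαg]
        exact (Submodule.Quotient.mk_eq_zero _).mpr ⟨g, rfl⟩
      rw [← h2, Finsupp.linearCombination_apply, Finsupp.sum, Finsupp.sum, map_sum]
      refine Finset.sum_congr rfl fun h _ => ?_
      rw [map_smul]
      congr 1
      exact (hwq h).symm
    exact (linearIndependent_iff.mp hΛ3) α h1
  · intro l hl
    rw [hμ2 l hl]
    have h1 : dK (vars I) (0 : Finset (Fin n) → MvPolynomial (Fin n) k ⧸ I) = 0 :=
      map_zero (dL I)
    rw [h1]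
    symm
    refine Finset.sum_eq_zero fun j _ => ?_
    funext T
    refine Finset.sum_eq_zero fun A _ => ?_
    obtain ⟨f, hf, hf'⟩ := hμc (l.take j) A
    obtain ⟨f', hf2, hf2'⟩ := hμc (l.drop j) (T \ A)
    have h2 : μ (l.take j) A * μ (l.drop j) (T \ A) = 0 := by
      rw [hf', hf2', ← map_mul, Ideal.Quotient.eq_zero_iff_mem]
      exact hsq (Ideal.mul_mem_mul hf hf2)
    show _ * (((-1) ^ (A.card + 1) * μ (l.take j) A) * μ (l.drop j) (T \ A)) = 0
    rw [mul_assoc ((-1) ^ (A.card + 1)), h2, mul_zero, mul_zero]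

end Basic

section Leibniz

variable {R : Type u} [CommRing R] {n : ℕ}

/-- number of inversions -/
def inv (A B : Finset (Fin n)) : ℕ := ((A ×ˢ B).filter (fun p => p.2 < p.1)).card

lemma inv_eq (A B : Finset (Fin n)) : inv A B = ∑ a ∈ A, (B.filter (· < a)).card := by
  unfold inv
  rw [Finset.card_filter, Finset.sum_product]
  refine Finset.sum_congr rfl fun a _ => ?_
  rw [Finset.card_filter]

lemma inv_insert_left {A B : Finset (Fin n)} {j : Fin n} (hj : j ∉ A) :
    inv (insert j A) B = inv A B + (B.filter (· < j)).card := by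
  rw [inv_eq, inv_eq, Finset.sum_insert hj, add_comm]

lemma inv_insert_right {A B : Finset (Fin n)} {j : Fin n} (hj : j ∉ B) :
    inv A (insert j B) = inv A B + (A.filter (j < ·)).card := by
  rw [inv_eq, inv_eq, Finset.card_filter, ← Finset.sum_add_distrib]
  refine Finset.sum_congr rfl fun a _ => ?_
  rw [Finset.filter_insert]
  split_ifs with h
  · rw [Finset.card_insert_of_notMem (by simp [hj])]
  · rfl

lemma card_split (A : Finset (Fin n)) (j : Fin n) (hj : j ∉ A) :
    A.card = (A.filter (· < j)).card + (A.filter (j < ·)).card := by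
  rw [← Finset.card_filter_add_card_filter_not (s := A) (p := (· < j))]
  congr 2
  apply Finset.filter_congr
  intro a ha
  have : a ≠ j := fun h => hj (h ▸ ha)
  rw [not_lt]
  exact ⟨fun h => lt_of_le_of_ne h (Ne.symm this), fun h => h.le⟩

/-- The product in the top degree. -/
lemma mulK_univ (a b : Finset (Fin n) → R) :
    mulK a b Finset.univ = ∑ A : Finset (Fin n), (-1) ^ (inv A Aᶜ) * (a A * b Aᶜ) := by
  unfold mulK inv
  rw [Finset.powerset_univ]
  rfl

/-- The Leibniz rule in the top degree. -/
lemma leibniz (x : Fin n → R) (g b : Finset (Fin n) → R) :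
    mulK (dK x g) b Finset.univ =
      - mulK (fun A => (-1) ^ A.card * g A) (dK x b) Finset.univ := by
  rw [mulK_univ, mulK_univ, ← Finset.sum_neg_distrib]
  unfold dK
  simp only [Finset.mul_sum, Finset.sum_mul, ← Finset.sum_neg_distrib]
  rw [Finset.sum_sigma', Finset.sum_sigma']
  refine Finset.sum_nbij' (fun p => ⟨insert p.2 p.1, p.2⟩) (fun p => ⟨p.1.erase p.2, p.2⟩)
    ?_ ?_ ?_ ?_ ?_
  · rintro ⟨A, j⟩ h
    simp at h ⊢
  · rintro ⟨A, j⟩ h
    simp at h ⊢
  · rintro ⟨A, j⟩ h
    simp only [Finset.mem_sigma, Finset.mem_univ, true_and, Finset.mem_compl] at h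
    simp only [Finset.erase_insert h]
  · rintro ⟨A, j⟩ h
    simp only [Finset.mem_sigma, Finset.mem_univ, true_and, compl_compl] at h
    simp only [Finset.insert_erase h]
  · rintro ⟨A, j⟩ h
    simp only [Finset.mem_sigma, Finset.mem_univ, true_and, Finset.mem_compl] at h
    simp only
    have hB : Aᶜ = insert j (insert j A)ᶜ := by
      rw [Finset.compl_insert, Finset.insert_erase (Finset.mem_compl.mpr h)]
    have hjB : j ∉ (insert j A)ᶜ := by simp
    set B := (insert j A)ᶜ with hBdef
    rw [hB, inv_insert_left h, inv_insert_right hjB, Finset.card_insert_of_notMem h,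
      card_split A j h]
    have key : ((-1 : R)) ^ (inv A B + (A.filter (j < ·)).card) * (-1) ^ (A.filter (· < j)).card =
        - ((-1) ^ (inv A B + (B.filter (· < j)).card) *
          (-1) ^ ((A.filter (· < j)).card + (A.filter (j < ·)).card + 1) *
          (-1) ^ (B.filter (· < j)).card) := by
      have h1 : ((-1 : R)) ^ (B.filter (· < j)).card * (-1) ^ (B.filter (· < j)).card = 1 := by
        rw [← mul_pow]; simp
      rw [pow_add, pow_add, pow_add, pow_add]
      linear_combination (-(-1 : R) ^ (inv A B) * (-1) ^ (A.filter (j < ·)).card *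
        (-1) ^ (A.filter (· < j)).card) * h1
    linear_combination (x j * g (insert j A) * b (insert j B)) * key

end Leibniz

section NotGolod

variable {k : Type u} [Field k] {n : ℕ}

/-- The top degree part of the product, as a bilinear map. -/
noncomputable def top (I : Ideal (MvPolynomial (Fin n) k)) :
    (Finset (Fin n) → MvPolynomial (Fin n) k ⧸ I) →ₗ[k]
      (Finset (Fin n) → MvPolynomial (Fin n) k ⧸ I) →ₗ[k] (MvPolynomial (Fin n) k ⧸ I) :=
  LinearMap.mk₂ k (fun a b => mulK a b Finset.univ)
    (by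
      intro a a' b
      rw [mulK_univ, mulK_univ, mulK_univ, ← Finset.sum_add_distrib]
      exact Finset.sum_congr rfl fun A _ => by rw [Pi.add_apply]; ring)
    (by
      intro c a b
      rw [mulK_univ, mulK_univ, Finset.smul_sum]
      refine Finset.sum_congr rfl fun A _ => ?_
      rw [Pi.smul_apply, smul_mul_assoc, mul_smul_comm])
    (by
      intro a b b'
      rw [mulK_univ, mulK_univ, mulK_univ, ← Finset.sum_add_distrib]
      exact Finset.sum_congr rfl fun A _ => by rw [Pi.add_apply]; ring)
    (by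
      intro c a b
      rw [mulK_univ, mulK_univ, Finset.smul_sum]
      refine Finset.sum_congr rfl fun A _ => ?_
      rw [Pi.smul_apply, mul_smul_comm, mul_smul_comm])

lemma top_apply (I : Ideal (MvPolynomial (Fin n) k))
    (a b : Finset (Fin n) → MvPolynomial (Fin n) k ⧸ I) : top I a b = mulK a b Finset.univ := rfl

/-- `a ↦ (-1)^{|a|} a` -/
def twist {R : Type u} [CommRing R] (a : Finset (Fin n) → R) : Finset (Fin n) → R :=
  fun A => (-1) ^ A.card * a A

lemma dK_twist {R : Type u} [CommRing R] (x : Fin n → R) (a : Finset (Fin n) → R)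
    (h : dK x a = 0) : dK x (twist a) = 0 := by
  funext T
  have h1 : dK x a T = 0 := congrFun h T
  have h2 : dK x (twist a) T = (-1) ^ (T.card + 1) * dK x a T := by
    unfold dK twist
    rw [Finset.mul_sum]
    refine Finset.sum_congr rfl fun j hj => ?_
    rw [Finset.card_insert_of_notMem (by simpa using hj)]
    ring
  rw [h2, h1, mul_zero]; rfl

lemma twist_twist {R : Type u} [CommRing R] (a : Finset (Fin n) → R) :
    (fun A : Finset (Fin n) => (-1 : R) ^ A.card * twist a A) = a := by
  funext A
  unfold twist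
  rw [← mul_assoc, ← mul_pow]; simp

lemma mulK_zero_right {R : Type u} [CommRing R] (a : Finset (Fin n) → R) (T : Finset (Fin n)) :
    mulK a 0 T = 0 := Finset.sum_eq_zero fun A _ => by simp

lemma mulK_zero_left {R : Type u} [CommRing R] (a : Finset (Fin n) → R) (T : Finset (Fin n)) :
    mulK 0 a T = 0 := Finset.sum_eq_zero fun A _ => by simp

lemma top_boundary_left (I : Ideal (MvPolynomial (Fin n) k))
    (g b : Finset (Fin n) → MvPolynomial (Fin n) k ⧸ I) (hb : dK (vars I) b = 0) :
    top I (dK (vars I) g) b = 0 := by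
  rw [top_apply, leibniz, hb, mulK_zero_right, neg_zero]

lemma top_boundary_right (I : Ideal (MvPolynomial (Fin n) k))
    (a g : Finset (Fin n) → MvPolynomial (Fin n) k ⧸ I) (ha : dK (vars I) a = 0) :
    top I a (dK (vars I) g) = 0 := by
  have h1 := leibniz (vars I) (twist a) g
  rw [twist_twist, dK_twist _ _ ha, mulK_zero_left] at h1
  rw [top_apply]
  exact neg_eq_zero.mp h1.symm

/-- In a Golod ring the products of cycles of positive degree have no component in the top
degree. -/
lemma top_eq_zero (I : Ideal (MvPolynomial (Fin n) k)) (h : IsGolod I)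
    (a b : Finset (Fin n) → MvPolynomial (Fin n) k ⧸ I) (ha : dK (vars I) a = 0) (ha0 : a ∅ = 0)
    (hb : dK (vars I) b = 0) (hb0 : b ∅ = 0) : top I a b = 0 := by
  obtain ⟨Λ, deg, μ, h1, h2, h3, h4, h5, h6⟩ := h
  have hz : ∀ s t : Λ, top I (μ [s]) (μ [t]) = 0 := by
    intro s t
    have h7 := congrFun (h6 [s, t] (by simp)) Finset.univ
    have h8 : dK (vars I) (μ [s, t]) Finset.univ = 0 := by
      unfold dK; simp
    rw [h8, Finset.sum_apply] at h7
    have h9 : Finset.Ico 1 [s, t].length = {1} := rfl
    rw [h9, Finset.sum_singleton] at h7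
    have h10 : barK (μ [s]) = ((-1 : k) ^ (deg s + 1)) • μ [s] := by
      funext T
      unfold barK
      by_cases hT : T.card = deg s
      · rw [hT, Pi.smul_apply]
        rcases Nat.even_or_odd (deg s + 1) with he | ho
        · refine (congrArg (· * μ [s] T) he.neg_one_pow).trans ?_
          rw [he.neg_one_pow, one_smul]
          exact one_mul _
        · refine (congrArg (· * μ [s] T) ho.neg_one_pow).trans ?_
          rw [ho.neg_one_pow, neg_smul, one_smul]
          exact neg_one_mul _
      · have h11 : μ [s] T = 0 := h2 [s] (by simp) T (by simpa using hT)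
        rw [Pi.smul_apply, h11, mul_zero, smul_zero]
    have h12 : top I (barK (μ [s])) (μ [t]) = 0 := h7.symm
    rw [h10, map_smul, LinearMap.smul_apply] at h12
    exact (smul_eq_zero.mp h12).resolve_left (pow_ne_zero _ (neg_ne_zero.mpr one_ne_zero))
  obtain ⟨α, g, hα⟩ := h4 a ha ha0
  obtain ⟨β, g', hβ⟩ := h4 b hb hb0
  have hcyc : ∀ γ : Λ →₀ k, dK (vars I) (γ.sum fun h r => r • μ [h]) = 0 := by
    intro γ
    have h7 : dL I (γ.sum fun h r => r • μ [h]) = 0 := by
      rw [Finsupp.sum, map_sum]
      refine Finset.sum_eq_zero fun s _ => ?_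
      rw [map_smul, dL_apply, h3, smul_zero]
    exact h7
  rw [hα, map_add, LinearMap.add_apply, top_boundary_left I g b hb, add_zero, hβ, map_add,
    top_boundary_right I _ g' (hcyc α), add_zero, Finsupp.sum, Finsupp.sum, map_sum]
  refine Finset.sum_eq_zero fun t _ => ?_
  rw [map_sum, LinearMap.sum_apply]
  refine Finset.sum_eq_zero fun s _ => ?_
  rw [map_smul, map_smul, LinearMap.smul_apply, hz, smul_zero, smul_zero]

end NotGolod

section Example

variable (k : Type u) [Field k]

/-- The maximal homogeneous ideal of `k[x_1, …, x_n]`. -/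
noncomputable def maxI (n : ℕ) : Ideal (MvPolynomial (Fin n) k) := Ideal.span (Set.range X)

/-- The ideal `𝔪 (x_1^{t+2}, …, x_4^{t+2}) + (x_1^{t+1} x_2^{t+1} x_3^{t+1} x_4^{t+1})` of
`k[x_1, …, x_4]`. -/
noncomputable def I₁ (t : ℕ) : Ideal (MvPolynomial (Fin 4) k) :=
  maxI k 4 * Ideal.span (Set.range fun i => X i ^ (t + 2)) ⊔ Ideal.span {∏ i, X i ^ (t + 1)}

variable {k}

lemma maxI_eq (n : ℕ) : maxI k n = PV k Set.univ := by unfold maxI PV; rw [Set.image_univ]

lemma mem_maxpow {n : ℕ} (t : ℕ) (u : Fin n →₀ ℕ) :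
    monomial u (1 : k) ∈ maxI k n ^ t ↔ t ≤ ∑ i, u i := by
  rw [maxI_eq, monomial_mem_max_pow]

lemma isMon_maxpow (n t : ℕ) : IsMon (maxI k n ^ t) := by
  rw [maxI_eq]; exact (isMon_PV _).pow t

/-- The powers `𝔪^t` with `t ≥ 2` are Golod. -/
lemma golod_maxpow {n : ℕ} [Nonempty (Fin n)] (t : ℕ) (ht : 2 ≤ t) : IsGolod (maxI k n ^ t) := by
  refine golod_of (maxI k n ^ t) (maxI k n ^ (t - 1)) (isMon_maxpow n t) ?_ ?_
  · intro b hb
    obtain ⟨v, hv⟩ : ∃ v, b v ≠ 0 := by
      by_contra hcon
      push Not at hcon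
      exact hb (Finsupp.ext hcon)
    refine ⟨v, hv, fun T hvT hle h => ?_⟩
    rw [mem_maxpow] at h ⊢
    have h1 : ∑ i, (b - ind T) i = ∑ i, (b - ind (insert v T)) i + 1 := by
      have h2 : ∀ i, (b - ind T) i = (b - ind (insert v T)) i + (if i = v then 1 else 0) := by
        intro i
        rw [Finsupp.tsub_apply, Finsupp.tsub_apply, ind_apply, ind_apply]
        have h3 := hle i
        rw [ind_apply] at h3
        by_cases hi : i = v
        · subst hi
          simp only [Finset.mem_insert, true_or, if_true, if_neg hvT]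
          omega
        · simp only [Finset.mem_insert, hi, false_or, if_false, add_zero]
      rw [Finset.sum_congr rfl (fun i _ => h2 i), Finset.sum_add_distrib]
      simp
    omega
  · rw [← pow_add]
    exact Ideal.pow_le_pow_right (by omega)

/-- The monomials of the ideal `I₁`. -/
def Cond (a : ℕ) (u : Fin 4 →₀ ℕ) : Prop :=
  (∃ i, a + 1 ≤ u i ∧ a + 2 ≤ ∑ j, u j) ∨ ∀ i, a ≤ u i

lemma Q_eq (a : ℕ) : Ideal.span (Set.range fun i : Fin 4 => (X i : MvPolynomial (Fin 4) k) ^ a) =
    Ideal.span ((fun u => monomial u (1 : k)) '' Set.range fun i : Fin 4 => Finsupp.single i a) := by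
  congr 1
  rw [← Set.range_comp]
  congr 1
  funext i
  rw [Function.comp_apply, X_pow_eq_monomial]

lemma M_eq (a : ℕ) : Ideal.span {∏ i : Fin 4, (X i : MvPolynomial (Fin 4) k) ^ a} =
    Ideal.span ((fun u => monomial u (1 : k)) '' {a • ind Finset.univ}) := by
  congr 1
  rw [Set.image_singleton]
  congr 1
  rw [monomial_eq, map_one, one_mul, Finsupp.prod_fintype _ _ (by simp)]
  refine Finset.prod_congr rfl fun i _ => ?_
  rw [Finsupp.smul_apply, ind_apply, if_pos (Finset.mem_univ i), smul_eq_mul, mul_one]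

lemma isMon_I₁ (t : ℕ) : IsMon (I₁ k t) := by
  unfold I₁
  rw [Q_eq, M_eq, maxI_eq]
  exact ((isMon_PV _).mul (isMon_span _)).sup (isMon_span _)

lemma mem_I₁ (t : ℕ) (u : Fin 4 →₀ ℕ) : monomial u (1 : k) ∈ I₁ k t ↔ Cond (t + 1) u := by
  unfold I₁ Cond
  rw [Q_eq, M_eq, maxI_eq, ((isMon_PV _).mul (isMon_span _)).monomial_mem_sup (isMon_span _),
    (isMon_span _).monomial_mem_max_mul, monomial_mem_span_iff]
  refine or_congr ?_ ?_
  · constructor
    · rintro ⟨i, v, rfl, hv⟩
      rw [monomial_mem_span_iff] at hv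
      obtain ⟨_, ⟨j, rfl⟩, hle⟩ := hv
      rw [Finsupp.single_le_iff] at hle
      refine ⟨j, ?_, ?_⟩
      · rw [Finsupp.add_apply]; omega
      · have h1 : v j ≤ ∑ l, v l := Finset.single_le_sum (f := fun l => v l)
          (fun _ _ => Nat.zero_le _) (Finset.mem_univ j)
        have h2 : ∑ l, (Finsupp.single i 1 + v : Fin 4 →₀ ℕ) l = 1 + ∑ l, v l := by
          simp only [Finsupp.add_apply]
          rw [Finset.sum_add_distrib]
          congr 1
          rw [Finset.sum_eq_single i (fun j _ hj => Finsupp.single_eq_of_ne hj) (by simp)]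
          simp
        rw [h2]; omega
    · rintro ⟨i, h1, h2⟩
      have hle : Finsupp.single i (t + 2) ≤ u := by rw [Finsupp.single_le_iff]; omega
      obtain ⟨z, rfl⟩ := exists_add_of_le hle
      have h3 : ∑ l, (Finsupp.single i (t + 2) + z : Fin 4 →₀ ℕ) l = (t + 2) + ∑ l, z l := by
        simp only [Finsupp.add_apply]
        rw [Finset.sum_add_distrib]
        congr 1
        rw [Finset.sum_eq_single i (fun j _ hj => Finsupp.single_eq_of_ne hj) (by simp)]
        simp
      rw [h3] at h2
      obtain ⟨j, -, hj⟩ : ∃ j ∈ Finset.univ, z j ≠ 0 := by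
        apply Finset.exists_ne_zero_of_sum_ne_zero
        omega
      have hle2 : Finsupp.single j 1 ≤ z := by rw [Finsupp.single_le_iff]; omega
      obtain ⟨y, rfl⟩ := exists_add_of_le hle2
      refine ⟨j, Finsupp.single i (t + 2) + y, by abel, ?_⟩
      rw [monomial_mem_span_iff]
      exact ⟨_, ⟨i, rfl⟩, by simp⟩
  · constructor
    · rintro ⟨_, rfl, hle⟩ i
      have := hle i
      rw [Finsupp.smul_apply, ind_apply, if_pos (Finset.mem_univ i), smul_eq_mul, mul_one] at this
      exact this
    · intro h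
      refine ⟨_, rfl, fun i => ?_⟩
      rw [Finsupp.smul_apply, ind_apply, if_pos (Finset.mem_univ i), smul_eq_mul, mul_one]
      exact h i

/-- The monomials of the auxiliary ideal. -/
def CondA (a : ℕ) (u : Fin 4 →₀ ℕ) : Prop :=
  (∃ i, a + 1 ≤ u i) ∨ ∃ i j, i ≠ j ∧ a ≤ u i ∧ a ≤ u j

/-- The auxiliary ideal `(x_i^{a+1}, x_i^a x_j^a)`. -/
noncomputable def AA (k : Type u) [Field k] (a : ℕ) : Ideal (MvPolynomial (Fin 4) k) :=
  Ideal.span ((fun u => monomial u (1 : k)) '' {u | CondA a u})

lemma mem_AA (a : ℕ) (u : Fin 4 →₀ ℕ) : monomial u (1 : k) ∈ AA k a ↔ CondA a u := by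
  unfold AA
  rw [monomial_mem_span_iff]
  constructor
  · rintro ⟨v, hv, hle⟩
    rcases hv with ⟨i, hi⟩ | ⟨i, j, hij, hi, hj⟩
    · exact Or.inl ⟨i, hi.trans (hle i)⟩
    · exact Or.inr ⟨i, j, hij, hi.trans (hle i), hj.trans (hle j)⟩
  · intro h; exact ⟨u, h, le_rfl⟩

lemma isMon_AA (a : ℕ) : IsMon (AA k a) := isMon_span _

lemma four : ∀ i j l m : Fin 4, i ≠ j → l ≠ m → i ≠ l → i ≠ m → j ≠ l → j ≠ m →
    ∀ x, x = i ∨ x = j ∨ x = l ∨ x = m := by decide

lemma two_others : ∀ v : Fin 4, ∃ i j, i ≠ j ∧ i ≠ v ∧ j ≠ v := by decide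

lemma single_le_sum4 (u : Fin 4 →₀ ℕ) (i : Fin 4) : u i ≤ ∑ j, u j :=
  Finset.single_le_sum (f := fun l => u l) (fun _ _ => Nat.zero_le _) (Finset.mem_univ i)

lemma add_le_sum4 (u : Fin 4 →₀ ℕ) (i j : Fin 4) (h : i ≠ j) : u i + u j ≤ ∑ l, u l := by
  rw [← Finset.sum_pair h]
  exact Finset.sum_le_sum_of_subset (Finset.subset_univ _)

lemma golod_I₁ (t : ℕ) (ht : 1 ≤ t) : IsGolod (I₁ k t) := by
  refine golod_of (I₁ k t) (AA k (t + 1)) (isMon_I₁ t) ?_ ?_
  · intro b hb
    -- the choice of the vertex of the cone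
    have hex : ∃ v, b v ≠ 0 ∧ (b v = t + 2 → ∀ j, b j ≠ 0 → b j = t + 2) := by
      by_cases h : ∃ v, b v ≠ 0 ∧ b v ≠ t + 2
      · obtain ⟨v, h1, h2⟩ := h
        exact ⟨v, h1, fun h3 => absurd h3 h2⟩
      · push Not at h
        obtain ⟨v, hv⟩ : ∃ v, b v ≠ 0 := by
          by_contra hcon
          push Not at hcon
          exact hb (Finsupp.ext hcon)
        exact ⟨v, hv, fun _ j hj => h j hj⟩
    obtain ⟨v, hv, hv2⟩ := hex
    refine ⟨v, hv, fun T hvT hle h => ?_⟩
    rw [mem_I₁] at h
    rw [mem_AA]
    have e1 : ∀ j, j ≠ v → (b - ind (insert v T)) j = (b - ind T) j := by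
      intro j hj
      rw [Finsupp.tsub_apply, Finsupp.tsub_apply, ind_apply, ind_apply]
      simp only [Finset.mem_insert, hj, false_or]
    have e2 : (b - ind (insert v T)) v = b v - 1 := by
      rw [Finsupp.tsub_apply, ind_apply, if_pos (Finset.mem_insert_self _ _)]
    have e3 : (b - ind T) v = b v := by
      rw [Finsupp.tsub_apply, ind_apply, if_neg hvT, Nat.sub_zero]
    rcases h with ⟨i, hi, hdeg⟩ | h
    · by_cases hiv : i = v
      · subst hiv
        rw [e3] at hi
        by_cases hbv : b i = t + 2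
        · -- all nonzero coordinates are equal to `t + 2`
          obtain ⟨j, hji, hj⟩ : ∃ j, j ≠ i ∧ (b - ind T) j ≠ 0 := by
            by_contra hcon
            push Not at hcon
            rw [Finset.sum_eq_single i (fun j _ hj => hcon j hj) (by simp), e3] at hdeg
            omega
          have hbj : b j ≠ 0 := by
            rw [Finsupp.tsub_apply] at hj; omega
          have hbj2 := hv2 hbv j hbj
          refine Or.inr ⟨i, j, Ne.symm hji, ?_, ?_⟩
          · rw [e2, hbv]; omega
          · rw [e1 j hji, Finsupp.tsub_apply, hbj2, ind_apply]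
            split_ifs <;> omega
        · refine Or.inl ⟨i, ?_⟩
          rw [e2]; omega
      · exact Or.inl ⟨i, by rw [e1 i hiv]; exact hi⟩
    · obtain ⟨i, j, hij, hi, hj⟩ := two_others v
      exact Or.inr ⟨i, j, hij, by rw [e1 i hi]; exact h i, by rw [e1 j hj]; exact h j⟩
  · intro f hf
    refine mem_of_forall fun u hu => ?_
    obtain ⟨v, w, hv, hw, rfl⟩ :=
      (isMon_AA (k := k) (t + 1)).monomial_mem_mul (isMon_AA (t + 1))
        ((isMon_AA (t + 1)).mul (isMon_AA (t + 1)) f hf u hu)
    rw [mem_AA] at hv hw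
    rw [mem_I₁]
    have hsum : ∑ l, (v + w : Fin 4 →₀ ℕ) l = ∑ l, v l + ∑ l, w l := by
      simp only [Finsupp.add_apply]; exact Finset.sum_add_distrib
    have hdeg : ∀ z : Fin 4 →₀ ℕ, CondA (t + 1) z → t + 2 ≤ ∑ l, z l := by
      rintro z (⟨i, hi⟩ | ⟨i, j, hij, hi, hj⟩)
      · exact hi.trans (single_le_sum4 z i)
      · have := add_le_sum4 z i j hij
        omega
    have hdv := hdeg v hv
    have hdw := hdeg w hw
    rcases hv with ⟨i, hi⟩ | ⟨i, j, hij, hi, hj⟩
    · left
      refine ⟨i, ?_, ?_⟩
      · rw [Finsupp.add_apply]; omega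
      · rw [hsum]; omega
    · rcases hw with ⟨l, hl⟩ | ⟨l, m, hlm, hl, hm⟩
      · left
        refine ⟨l, ?_, ?_⟩
        · rw [Finsupp.add_apply]; omega
        · rw [hsum]; omega
      · by_cases h1 : i = l
        · subst h1; left; refine ⟨i, ?_, ?_⟩
          · rw [Finsupp.add_apply]; omega
          · rw [hsum]; omega
        · by_cases h2 : i = m
          · subst h2; left; refine ⟨i, ?_, ?_⟩
            · rw [Finsupp.add_apply]; omega
            · rw [hsum]; omega
          · by_cases h3 : j = l
            · subst h3; left; refine ⟨j, ?_, ?_⟩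
              · rw [Finsupp.add_apply]; omega
              · rw [hsum]; omega
            · by_cases h4 : j = m
              · subst h4; left; refine ⟨j, ?_, ?_⟩
                · rw [Finsupp.add_apply]; omega
                · rw [hsum]; omega
              · right
                intro x
                rw [Finsupp.add_apply]
                rcases four i j l m hij hlm h1 h2 h3 h4 x with rfl | rfl | rfl | rfl <;> omega

/-- The product `I₁ 𝔪^t`: the cycles `x^{t+1} y^{t+1} e_x e_y` and `z^{t+1} w^{t+1} e_z e_w` have a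
nonzero product in the socle. -/
lemma isMon_prod (t : ℕ) : IsMon (I₁ k t * maxI k 4 ^ t) := (isMon_I₁ t).mul (isMon_maxpow 4 t)

lemma mem_prod (t : ℕ) (ht : 1 ≤ t) (i j : Fin 4) (hij : i ≠ j) :
    monomial (Finsupp.single i 1 + (t + 1) • ind {i, j}) (1 : k) ∈ I₁ k t * maxI k 4 ^ t := by
  have h1 : Finsupp.single i 1 + (t + 1) • ind {i, j} =
      (Finsupp.single i (t + 2) + Finsupp.single j 1) + Finsupp.single j t := by
    ext l
    simp only [Finsupp.add_apply, Finsupp.smul_apply, ind_apply, Finset.mem_insert,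
      Finset.mem_singleton, Finsupp.single_apply, smul_eq_mul]
    by_cases h1 : l = i
    · subst h1
      simp [Ne.symm hij]
      omega
    · by_cases h2 : l = j
      · subst h2
        simp [Ne.symm h1]
        omega
      · simp [h1, h2, Ne.symm h1, Ne.symm h2]
  rw [h1]
  have h2 : (monomial (Finsupp.single i (t + 2) + Finsupp.single j 1 + Finsupp.single j t) (1 : k)) =
      monomial (Finsupp.single i (t + 2) + Finsupp.single j 1) 1 *
        monomial (Finsupp.single j t) 1 := by
    rw [monomial_mul, one_mul]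
  rw [h2]
  apply Ideal.mul_mem_mul
  · rw [mem_I₁]
    left
    refine ⟨i, ?_, ?_⟩
    · rw [Finsupp.add_apply, Finsupp.single_eq_same]; omega
    · have h4 := add_le_sum4 (Finsupp.single i (t + 2) + Finsupp.single j 1) i j hij
      have h5 : (Finsupp.single i (t + 2) + Finsupp.single j 1 : Fin 4 →₀ ℕ) i = t + 2 := by
        rw [Finsupp.add_apply, Finsupp.single_eq_same, Finsupp.single_eq_of_ne hij, add_zero]
      have h6 : (Finsupp.single i (t + 2) + Finsupp.single j 1 : Fin 4 →₀ ℕ) j = 1 := by
        rw [Finsupp.add_apply, Finsupp.single_eq_same, Finsupp.single_eq_of_ne (Ne.symm hij),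
          zero_add]
      rw [h5, h6] at h4
      omega
  · rw [mem_maxpow]
    have h4 := single_le_sum4 (Finsupp.single j t) j
    rwa [Finsupp.single_eq_same] at h4

lemma not_mem_prod (t : ℕ) (ht : 1 ≤ t) :
    monomial ((t + 1) • ind Finset.univ) (1 : k) ∉ I₁ k t * maxI k 4 ^ t := by
  intro h
  obtain ⟨v, w, hv, hw, hvw⟩ := (isMon_I₁ t).monomial_mem_mul (isMon_maxpow 4 t) h
  rw [mem_I₁] at hv
  rw [mem_maxpow] at hw
  have h1 : ∀ i, v i + w i = t + 1 := by
    intro i
    have := DFunLike.congr_fun hvw i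
    rw [Finsupp.smul_apply, ind_apply, if_pos (Finset.mem_univ i), smul_eq_mul, mul_one,
      Finsupp.add_apply] at this
    exact this.symm
  rcases hv with ⟨i, hi, -⟩ | h2
  · have := h1 i; omega
  · have h3 : ∑ i, w i = 0 := by
      refine Finset.sum_eq_zero fun i _ => ?_
      have := h1 i
      have := h2 i
      omega
    omega

/-- The cycle `x_i^{t+1} x_j^{t+1} e_i e_j`. -/
noncomputable def cyc (k : Type u) [Field k] (t : ℕ) (P : Finset (Fin 4)) :
    Finset (Fin 4) → MvPolynomial (Fin 4) k ⧸ (I₁ k t * maxI k 4 ^ t) :=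
  fun T => if T = P then Ideal.Quotient.mk _ (monomial ((t + 1) • ind P) 1) else 0

lemma dK_cyc (t : ℕ) (ht : 1 ≤ t) (i j : Fin 4) (hij : i ≠ j) :
    dK (vars (I₁ k t * maxI k 4 ^ t)) (cyc k t {i, j}) = 0 := by
  funext T
  refine Finset.sum_eq_zero fun l hl => ?_
  have hl' : l ∉ T := by simpa using hl
  unfold cyc
  split_ifs with h
  · have hlm : l ∈ ({i, j} : Finset (Fin 4)) := by rw [← h]; exact Finset.mem_insert_self _ _
    have key : X l * monomial ((t + 1) • ind {i, j}) (1 : k) ∈ I₁ k t * maxI k 4 ^ t := by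
      rw [X, monomial_mul, one_mul]
      rw [Finset.mem_insert, Finset.mem_singleton] at hlm
      rcases hlm with rfl | rfl
      · exact mem_prod t ht _ _ hij
      · rw [Finset.pair_comm]
        exact mem_prod t ht _ _ (Ne.symm hij)
    unfold vars
    rw [← map_mul, Ideal.Quotient.eq_zero_iff_mem.mpr key, mul_zero]
  · rw [mul_zero, mul_zero]

lemma not_golod (t : ℕ) (ht : 1 ≤ t) : ¬ IsGolod (I₁ k t * maxI k 4 ^ t) := by
  intro h
  have h1 := top_eq_zero _ h (cyc k t {0, 1}) (cyc k t {2, 3}) (dK_cyc t ht 0 1 (by decide))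
    (if_neg (by decide)) (dK_cyc t ht 2 3 (by decide)) (if_neg (by decide))
  rw [top_apply, mulK_univ, Finset.sum_eq_single {0, 1}] at h1
  · have h2 : ({0, 1} : Finset (Fin 4))ᶜ = {2, 3} := by decide
    have h3 : inv ({0, 1} : Finset (Fin 4)) {2, 3} = 0 := by decide
    rw [h2, h3, pow_zero, one_mul] at h1
    unfold cyc at h1
    rw [if_pos rfl, if_pos rfl, ← map_mul, monomial_mul, one_mul,
      Ideal.Quotient.eq_zero_iff_mem] at h1
    apply not_mem_prod (k := k) t ht
    have h4 : (ind Finset.univ : Fin 4 →₀ ℕ) = ind {0, 1} + ind {2, 3} := by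
      ext i
      rw [Finsupp.add_apply, ind_apply, ind_apply, ind_apply]
      fin_cases i <;> rfl
    rw [h4, smul_add]
    exact h1
  · intro A _ hA
    unfold cyc
    rw [if_neg hA, zero_mul, mul_zero]
  · intro h; exact absurd (Finset.mem_univ _) h

end Example

attribute [local instance] MvPolynomial.gradedAlgebra

/-- **Products of Golod ideals need not be Golod.** -/
theorem result (k : Type u) [Field k] :
    (∀ t : ℕ, 2 ≤ t → IsGolod (I₁ k t) ∧ IsGolod (maxI k 4 ^ t) ∧
      ¬ IsGolod (I₁ k t * maxI k 4 ^ t)) ∧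
    ¬ (∀ (n : ℕ) (I J : Ideal (MvPolynomial (Fin n) k)),
      I.IsHomogeneous (homogeneousSubmodule (Fin n) k) →
      J.IsHomogeneous (homogeneousSubmodule (Fin n) k) →
      I ≤ maxI k n ^ 2 → J ≤ maxI k n ^ 2 →
      IsGolod I → IsGolod J → IsGolod (I * J)) := by
  have main : ∀ t : ℕ, 2 ≤ t → IsGolod (I₁ k t) ∧ IsGolod (maxI k 4 ^ t) ∧
      ¬ IsGolod (I₁ k t * maxI k 4 ^ t) := fun t ht =>
    ⟨golod_I₁ t (by omega), golod_maxpow t ht, not_golod t (by omega)⟩
  refine ⟨main, fun h => ?_⟩
  refine (main 2 le_rfl).2.2 (h 4 (I₁ k 2) (maxI k 4 ^ 2) (isMon_I₁ 2).isHomogeneous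
    (isMon_maxpow 4 2).isHomogeneous ?_ le_rfl (main 2 le_rfl).1 (main 2 le_rfl).2.1)
  intro f hf
  refine mem_of_forall fun u hu => ?_
  have h1 := (mem_I₁ 2 u).mp (isMon_I₁ 2 f hf u hu)
  rw [mem_maxpow]
  rcases h1 with ⟨i, hi, hi2⟩ | h1
  · omega
  · have h2 := single_le_sum4 u 0
    have h3 := h1 0
    omega

end Pool.Agent.Results.MP_6756f0_al.ProductOfGolodIdeals
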